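import Pool.Agent.Helper92.BO.GoalsE

/-!
# Stable set polytopes: correctness of the table (goal CTB)
-/

namespace Pool.Agent.Helper60.BO

open Pool.Agent.Helper81.CC Pool.Agent.Bin Pool.Agent.Helper92.VP Pool.Agent.Helper92.FR
open Pool.Agent.Helper92.BO

/-- Looking up a table. -/
theorem lkp_map (c : List ℕ → BN) (l : List (List ℕ)) (J : List ℕ) (hJ : J ∈ l) :
    lkp (l.map fun I => (I, c I)) J = c J := by
  induction l with
  | nil => simp at hJ
  | cons K l ih =>
    by_cases hK : K = J
    · subst hK
      simp [lkp]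
    · have hJ' : J ∈ l := by
        rcases List.mem_cons.1 hJ with h | h
        · exact absurd h.symm hK
        · exact h
      have := ih hJ'
      simp only [lkp, List.map_cons, List.find?_cons] at this ⊢
      simp only [hK, decide_false]
      exact this

/-- The value of the next entry. -/
theorem cval_val (hP : PrcStmt) (hI : PinStmt) (hR : RlbStmt) (Δ n : ℕ) (E : List (ℕ × ℕ))
    (Q : BN) (hD : DegLe (gE E) Δ) (c : List ℕ → BN) (l1 : List (List ℕ)) (I : List ℕ)
    (hnd : I.Nodup) (hn : ∀ i ∈ I, i < n)
    (hQ : (cn (gE E) n I.toFinset).card.factorial ∣ Q.val)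
    (hf : ∀ i ∈ I, (I.filter fun j => decide (j ≠ i)) ∈ l1)
    (hc : ∀ J ∈ l1, ((c J).val : ℝ) = Q.val * pG (gE E) n J.toFinset) :
    ((cval E n Q (l1.map fun J => (J, c J)) I).val : ℝ) = Q.val * pG (gE E) n I.toFinset := by
  obtain ⟨hP1, -, hP3, hP4⟩ := hP (gE E) n
  have hsub : I.toFinset ⊆ Finset.range n := by
    intro i hi
    exact Finset.mem_range.2 (hn i (List.mem_toFinset.1 hi))
  by_cases h0 : I = []
  · subst h0
    simp [cval, hP1]
  have h0' : I.isEmpty = false := by
    cases I with
    | nil => exact absurd rfl h0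
    | cons a t => rfl
  by_cases hE : hasE E I = true
  · have hv : cval E n Q (l1.map fun J => (J, c J)) I = ⟨0⟩ := by
      simp [cval, h0', hE]
    rw [hv]
    have hz : pG (gE E) n I.toFinset = 0 := by
      apply hP3 _ hsub
      simp only [hasE, List.any_eq_true] at hE
      obtain ⟨u, hu, w, hw, huw⟩ := hE
      exact ⟨u, List.mem_toFinset.2 hu, w, List.mem_toFinset.2 hw, huw⟩
    rw [hz]
    simp
  · have hE' : hasE E I = false := by simpa using hE
    have hind : ∀ i ∈ I.toFinset, ∀ j ∈ I.toFinset, ¬ (gE E).Adj i j := by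
      intro i hi j hj hij
      apply hE
      simp only [hasE, List.any_eq_true]
      exact ⟨i, List.mem_toFinset.1 hi, j, List.mem_toFinset.1 hj, hij⟩
    have hne : I.toFinset.Nonempty := by
      obtain ⟨a, ha⟩ := List.exists_mem_of_ne_nil I h0
      exact ⟨a, List.mem_toFinset.2 ha⟩
    have hrec := hP4 I.toFinset hsub hne hind
    obtain ⟨hR1, -, -⟩ := hR Δ n E hD
    obtain ⟨hcn, hcnd, -⟩ := hR1 I hn
    have hlen : (cnL E n I).length = (cn (gE E) n I.toFinset).card := by
      rw [← hcn, List.toFinset_card_of_nodup hcnd]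
    set k := (cn (gE E) n I.toFinset).card with hk
    have hkpos : 0 < k := by
      obtain ⟨i, hi⟩ := hne
      rw [hk, Finset.card_pos]
      refine ⟨i, ?_⟩
      simp only [cn, Finset.mem_filter]
      exact ⟨hsub hi, Or.inl hi⟩
    obtain ⟨c0, hc0⟩ := hI (gE E) n I.toFinset k hsub le_rfl
    obtain ⟨d, hd⟩ := hQ
    have hQp : (Q.val : ℝ) * pG (gE E) n I.toFinset = ((c0 * d : ℕ) : ℝ) := by
      rw [hd]
      push_cast
      rw [← hc0]
      ring
    have hv : cval E n Q (l1.map fun J => (J, c J)) I =
        BN.sum (I.map fun i => lkp (l1.map fun J => (J, c J)) (I.filter fun j => decide (j ≠ i))) /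
          BN.ofNat (cnL E n I).length := by
      simp only [cval, h0', hE', Bool.false_eq_true, if_false]
    have hsum : (((I.map fun i => lkp (l1.map fun J => (J, c J))
        (I.filter fun j => decide (j ≠ i))).map BN.val).sum : ℝ) =
        (Q.val : ℝ) * ((k : ℝ) * pG (gE E) n I.toFinset) := by
      rw [hrec, Finset.mul_sum, List.sum_toFinset _ hnd, Nat.cast_list_sum, List.map_map,
        List.map_map]
      congr 1
      apply List.map_congr_left
      intro i hi
      simp only [Function.comp]
      rw [lkp_map c l1 _ (hf i hi), hc _ (hf i hi)]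
      congr 2
      ext j
      simp only [List.mem_toFinset, List.mem_filter, Finset.mem_erase, decide_eq_true_eq]
      tauto
    have hsumN : ((I.map fun i => lkp (l1.map fun J => (J, c J))
        (I.filter fun j => decide (j ≠ i))).map BN.val).sum = k * (c0 * d) := by
      have : (((I.map fun i => lkp (l1.map fun J => (J, c J))
        (I.filter fun j => decide (j ≠ i))).map BN.val).sum : ℝ) = ((k * (c0 * d) : ℕ) : ℝ) := by
        rw [hsum, Nat.cast_mul, ← hQp]
        ring
      exact_mod_cast this
    rw [hv, BN.val_div, BN.val_sum, BN.val_ofNat, hsumN, hlen, Nat.mul_div_cancel_left _ hkpos, hQp]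

/-- CTB. -/
theorem ctb (hS : SblStmt) (hP : PrcStmt) (hI : PinStmt) (hR : RlbStmt) : CtbStmt := by
  intro Δ n E Q S hD hSn hSlt hQ
  obtain ⟨hS1, -, hSnd, -, -, hS6⟩ := hS S hSn
  have key : ∀ l1 l2 : List (List ℕ), Helper92.BO.subL S = l1 ++ l2 → ∃ c : List ℕ → BN,
      l1.foldl (fun tab I => tab ++ [(I, cval E n Q tab I)]) [] = l1.map (fun I => (I, c I)) ∧
      ∀ I ∈ l1, ((c I).val : ℝ) = Q.val * pG (gE E) n I.toFinset := by
    intro l1
    induction l1 using List.reverseRecOn with
    | nil =>
      intro l2 _
      exact ⟨fun _ => ⟨0⟩, by simp, by simp⟩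
    | append_singleton l1 I ih =>
      intro l2 h12
      have h12' : Helper92.BO.subL S = l1 ++ I :: l2 := by rw [h12]; simp
      obtain ⟨c, hc1, hc2⟩ := ih (I :: l2) h12'
      have hnd := hSnd
      rw [h12'] at hnd
      have hInot : I ∉ l1 := by
        intro hI1
        rw [List.nodup_append] at hnd
        exact hnd.2.2 I hI1 I (by simp) rfl
      have hIS : I ∈ Helper92.BO.subL S := by rw [h12']; simp
      have hIsub : I.Sublist S := hS1 I hIS
      have hv := cval_val hP hI hR Δ n E Q hD c l1 I (hSn.sublist hIsub)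
        (fun i hi => hSlt i (hIsub.subset hi))
        (hQ _ (fun i hi => List.mem_toFinset.2 (hIsub.subset (List.mem_toFinset.1 hi))))
        (hS6 l1 l2 I h12') hc2
      refine ⟨Function.update c I (cval E n Q (l1.map fun J => (J, c J)) I), ?_, ?_⟩
      · rw [List.foldl_append, hc1, List.map_append]
        simp only [List.foldl_cons, List.foldl_nil, List.map_cons, List.map_nil,
          Function.update_self]
        congr 1
        apply List.map_congr_left
        intro J hJ
        rw [Function.update_of_ne (fun h : J = I => hInot (h ▸ hJ))]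
      · intro J hJ
        rw [List.mem_append, List.mem_singleton] at hJ
        rcases hJ with hJ | rfl
        · rw [Function.update_of_ne (fun h : J = I => hInot (h ▸ hJ))]
          exact hc2 J hJ
        · rw [Function.update_self]
          exact hv
  obtain ⟨c, hc1, hc2⟩ := key (Helper92.BO.subL S) [] (by simp)
  exact ⟨c, hc1, hc2⟩

end Pool.Agent.Helper60.BO
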